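import Pool.Agent.Helper16.SD.GoalsJ

/-! # Packet SD-J_RAT (MP_fc6b1e_nt): rationality of the sums of logarithms -/

set_option autoImplicit false

namespace Pool.Agent.Helper95.SD.J_RAT

open NumberField Module Pool.Agent.Helper51.SigLeo Pool.Agent.Helper16.SD

theorem lg_pow {p : ℕ} {k : Type} [NormedField k] (Lg : IwasawaLog p k) (u : kˣ) (n : ℕ) :
    Lg.toFun (u ^ n) = n * Lg.toFun u := by
  have h1 : Lg.toFun 1 = 0 := by
    have := Lg.map_mul 1 1
    rw [mul_one] at this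
    simpa using this
  induction n with
  | zero => simp [h1]
  | succ n ih =>
    rw [pow_succ, Lg.map_mul, ih]
    push_cast
    ring

theorem closed_range (p : ℕ) [Fact p.Prime] :
    IsClosed (Set.range (algebraMap ℚ_[p] ℂ_[p])) :=
  (algebraMap_isometry ℚ_[p] ℂ_[p]).isClosedEmbedding.isClosed_range

theorem t (hZ : Z_NEAR) : J_RAT := by
  intro p _ K F _ _ _ _ _ _ hS Lg τ x hx y
  obtain ⟨c, b, hc, hpc, hcb⟩ := hZ p F Lg
  have hp : p.Prime := Fact.out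
  have hp1 : (1 : ℝ) < p := by exact_mod_cast hp.one_lt
  set m : ℕ := c * p ^ b with hm
  have hm0 : m ≠ 0 := Nat.mul_ne_zero hc.ne' (pow_ne_zero _ hp.ne_zero)
  have hlt : (1 / p : ℝ) ^ 2 < 1 := by
    apply pow_lt_one₀ (by positivity) _ (by norm_num)
    rw [div_lt_one (by linarith)]
    exact hp1
  -- the unit at `h`
  set u : (F ≃ₐ[K] F) → (ℂ_[p])ˣ := fun h =>
    Units.map ((τ.comp (h : F →+* F) : F →+* ℂ_[p]) : F →* ℂ_[p]) x with hu
  have huv : ∀ h, ((u h : (ℂ_[p])ˣ) : ℂ_[p]) = τ (h (x : F)) := fun h => rfl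
  have hnear : ∀ h, ‖((u h ^ m : (ℂ_[p])ˣ) : ℂ_[p]) - 1‖ < 1 := by
    intro h
    have h1 := (hcb (Pool.Agent.Helper16.SD.hx h x) τ (hx h)).1
    rw [Units.val_pow_eq_pow_val, huv]
    exact lt_of_le_of_lt h1 hlt
  set w : F := (x : F) ^ m - 1 with hw
  have hwv : ∀ h : F ≃ₐ[K] F, ((u h ^ m : (ℂ_[p])ˣ) : ℂ_[p]) - 1 = τ (h w) := by
    intro h
    rw [Units.val_pow_eq_pow_val, huv, hw]
    simp only [map_sub, map_pow, map_one]
  have hsum : ∀ h : F ≃ₐ[K] F, HasSum (fun n : ℕ => τ (h y) *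
      ((-1) ^ n * (τ (h w)) ^ (n + 1) / (n + 1))) (τ (h y) * Lg.toFun (u h ^ m)) := by
    intro h
    have h1 := Lg.hasSum (u h ^ m) (hnear h)
    rw [hwv] at h1
    exact h1.mul_left _
  have htot := hasSum_sum (s := (Finset.univ : Finset (F ≃ₐ[K] F))) (fun h _ => hsum h)
  have hterm : ∀ n : ℕ, ∃ r : ℚ_[p], (∑ h : F ≃ₐ[K] F, τ (h y) *
      ((-1) ^ n * (τ (h w)) ^ (n + 1) / (n + 1))) = algebraMap ℚ_[p] ℂ_[p] r := by
    intro n
    obtain ⟨r, hr⟩ := hS (τ.comp (algebraMap K F)) (Algebra.trace K F (y * w ^ (n + 1)))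
    refine ⟨(-1) ^ n / (n + 1) * r, ?_⟩
    rw [map_mul, ← hr, RingHom.comp_apply, trace_eq_sum_automorphisms, map_sum, Finset.mul_sum]
    refine Finset.sum_congr rfl fun h _ => ?_
    simp only [map_mul, map_pow, map_div₀, map_add, map_neg, map_one, map_natCast]
    ring
  choose r hr using hterm
  simp only [hr] at htot
  have hmem : (∑ h : F ≃ₐ[K] F, τ (h y) * Lg.toFun (u h ^ m)) ∈
      Set.range (algebraMap ℚ_[p] ℂ_[p]) := by
    refine (closed_range p).mem_of_tendsto htot.tendsto_sum_nat (Filter.Eventually.of_forall ?_)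
    intro N
    exact ⟨∑ i ∈ Finset.range N, r i, map_sum _ _ _⟩
  obtain ⟨s, hs⟩ := hmem
  refine ⟨(m : ℚ_[p])⁻¹ * s, ?_⟩
  have hmc : (m : ℂ_[p]) ≠ 0 := by exact_mod_cast hm0
  rw [map_mul, map_inv₀, map_natCast, hs, Finset.mul_sum]
  refine Finset.sum_congr rfl fun h _ => ?_
  rw [lg_pow]
  have e1 : lgh Lg τ h x = Lg.toFun (u h) := rfl
  rw [e1]
  field_simp

end Pool.Agent.Helper95.SD.J_RAT
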