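import Pool.Agent.Helper16.SD.GoalsX
import Pool.Agent.Helper17.TH.DET
import Pool.Agent.Helper12.TH.COK

/-!
Project SD (MP_fc6b1e_nt): the goal X_ABS

The proof is the proof of `abs_main` in `Pool/Agent/Helper17/TH/ABS.lean`.
-/

set_option autoImplicit false

namespace Pool.Agent.Helper95.SD.X_ABS

open Module Polynomial
open Pool.Agent.Helper16.SD

theorem t : Pool.Agent.Helper16.SD.X_ABS := by
  intro p _ V _ _ _ hcompat Λ _ T W hTW hTΛ hspan k B Q hpre hb ha
  classical
  have hp0 : (p : ℂ_[p]) ≠ 0 := by exact_mod_cast (Fact.out : p.Prime).ne_zero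
  have hsm : ∀ (k : ℕ) (v : V), (p ^ k : ℕ) • v = (p : ℂ_[p]) ^ k • v := by
    intro k v
    rw [← Nat.cast_smul_eq_nsmul ℂ_[p]]
    push_cast
    rfl
  have hzc : ∀ (k : ℕ) (v : V), ((p : ℤ_[p]) ^ k) • v = (p ^ k : ℕ) • v := by
    intro k v
    have : zp p ((p : ℤ_[p]) ^ k) = (p : ℂ_[p]) ^ k := by
      rw [map_pow, map_natCast]
    rw [hcompat, this, hsm]
  have hcan : ∀ (k : ℕ) (v v' : V), (p ^ k : ℕ) • v = (p ^ k : ℕ) • v' → v = v' := by
    intro k v v' h
    rw [hsm, hsm] at h
    exact smul_right_injective V (pow_ne_zero k hp0) h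
  let N : Submodule ℤ_[p] V :=
    { carrier := {v | v ∈ Λ ∧ v ∈ W}
      add_mem' := fun h h' ↦ ⟨add_mem h.1 h'.1, add_mem h.2 h'.2⟩
      zero_mem' := ⟨zero_mem _, zero_mem _⟩
      smul_mem' := fun r v h ↦ ⟨Submodule.smul_mem _ _ h.1, by
        rw [hcompat]; exact Submodule.smul_mem _ _ h.2⟩ }
  have hNΛ : N ≤ Λ := fun v hv ↦ hv.1
  have hNfin : Module.Finite ℤ_[p] N := by
    have : IsNoetherian ℤ_[p] Λ := inferInstance
    have h1 : N.FG := isNoetherian_submodule.1 inferInstance N hNΛ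
    exact Module.Finite.iff_fg.2 h1
  have hTr : ∀ (r : ℤ_[p]) (v : V), T (r • v) = r • T v := by
    intro r v
    rw [hcompat, hcompat, map_smul]
  let TN : N →ₗ[ℤ_[p]] N :=
    { toFun := fun v ↦ ⟨T v, hTΛ _ v.2.1, hTW _ v.2.2⟩
      map_add' := fun v w ↦ Subtype.ext (map_add T _ _)
      map_smul' := fun r v ↦ Subtype.ext (hTr r v) }
  have hTNv : ∀ v : N, ((TN v : N) : V) = T v := fun v ↦ rfl
  have hkill : ∀ v : N, ∃ y : N, (p : ℤ_[p]) ^ B • v = TN y := by
    intro v
    obtain ⟨y, hyΛ, hyW, hy'⟩ := hpre v v.2.1 v.2.2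
    obtain ⟨y3, hy3, h3⟩ := hb y v hyΛ hyW v.2.1 v.2.2 hy'
    have hy3W : y3 ∈ W := by
      have h4 : (p : ℂ_[p]) ^ k • y3 ∈ W := by
        rw [← hsm, ← h3, hsm]
        exact Submodule.smul_mem _ _ hyW
      have h5 := Submodule.smul_mem W ((p : ℂ_[p]) ^ k)⁻¹ h4
      rwa [smul_smul, inv_mul_cancel₀ (pow_ne_zero k hp0), one_smul] at h5
    refine ⟨⟨y3, hy3, hy3W⟩, Subtype.ext ?_⟩
    rw [hTNv, Submodule.coe_smul, hzc]
    change p ^ B • (v : V) = T y3
    apply hcan k
    rw [← map_nsmul, ← h3, map_nsmul, hy', smul_comm]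
  obtain ⟨w, hw⟩ := Pool.Agent.Helper12.TH.s_cok p N TN Q (by
    intro s h1 h2
    have := ha (s.map ⟨Subtype.val, Subtype.val_injective⟩) (by
      intro u hu
      obtain ⟨u', hu', rfl⟩ := Finset.mem_map.1 hu
      obtain ⟨w, hw⟩ := h1 u' hu'
      refine ⟨u'.2.1, u'.2.2, w, w.2.1, w.2.2, ?_⟩
      have := congrArg Subtype.val hw
      rw [hTNv] at this
      simpa using this) (by
      intro u hu v hv ⟨w, hw1, hw2, hw3⟩
      obtain ⟨u', hu', rfl⟩ := Finset.mem_map.1 hu
      obtain ⟨v', hv', rfl⟩ := Finset.mem_map.1 hv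
      have := h2 u' hu' v' hv' ⟨⟨w, hw1, hw2⟩, Subtype.ext (by simpa using hw3)⟩
      rw [this])
    simpa using this)
  obtain ⟨D, hD0, hDN⟩ := Pool.Agent.Helper17.TH.s_det ℤ_[p] N TN Q w ((p : ℤ_[p]) ^ B) hw (fun i ↦ hkill (w i))
  refine ⟨D, by rw [hD0, pow_mul], ?_⟩
  -- `D(T)` kills `N`, hence `W`
  have haev : ∀ (P : ℤ_[p][X]) (x : N), aeval T (P.map (zp p)) (x : V) = ((aeval TN P x : N) : V) := by
    intro P
    induction P using Polynomial.induction_on' with
    | add P Q hP hQ =>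
      intro x
      rw [Polynomial.map_add, map_add, map_add, LinearMap.add_apply, LinearMap.add_apply, hP, hQ]
      rfl
    | monomial n a =>
      intro x
      rw [Polynomial.map_monomial, aeval_monomial, aeval_monomial, Module.End.mul_apply,
        Module.End.mul_apply, Module.algebraMap_end_apply, Module.algebraMap_end_apply,
        Submodule.coe_smul, hcompat]
      congr 1
      induction n generalizing x with
      | zero => rfl
      | succ n ih => rw [pow_succ, pow_succ, Module.End.mul_apply, Module.End.mul_apply,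
          ← hTNv, ih]
  have hW0 : ∀ v ∈ W, aeval T (D.map (zp p)) v = 0 := by
    intro v hv
    refine Submodule.span_induction (p := fun v _ ↦ aeval T (D.map (zp p)) v = 0) ?_ ?_ ?_ ?_
      (hspan v hv)
    · intro x hx
      have := haev D ⟨x, hx⟩
      rw [hDN] at this
      exact this
    · exact map_zero _
    · intro x y _ _ hx hy
      rw [map_add, hx, hy, add_zero]
    · intro c x _ hx
      rw [map_smul, hx, smul_zero]
  intro t v hv hv0 htv
  have h1 : ∀ (P : ℂ_[p][X]), aeval T P v = P.eval t • v := by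
    intro P
    induction P using Polynomial.induction_on' with
    | add P Q hP hQ =>
      rw [map_add, LinearMap.add_apply, hP, hQ, eval_add, add_smul]
    | monomial n a =>
      rw [aeval_monomial, Module.End.mul_apply, Module.algebraMap_end_apply, eval_monomial,
        mul_smul]
      congr 1
      induction n with
      | zero => simp
      | succ n ih => rw [pow_succ', Module.End.mul_apply, ih, map_smul, htv, smul_smul, pow_succ]
  have h2 := hW0 v hv
  rw [h1, smul_eq_zero] at h2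
  rcases h2 with h2 | h2
  · rwa [eval_map] at h2
  · exact absurd h2 hv0

end Pool.Agent.Helper95.SD.X_ABS
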