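import Pool.Agent.Helper16.SD.GoalsD
import Pool.Agent.Helper59.TH.TEN2

/-! # Packet SD-Z_TEN (MP_fc6b1e_nt): the tensor product modulo `p ^ N` -/

set_option autoImplicit false

namespace Pool.Agent.Helper95.SD.Z_TEN

open Module TensorProduct

theorem one (p : ℕ) [Fact p.Prime] (O : Type) [CommRing O] [Algebra ℤ_[p] O] (ι : Type)
    [Fintype ι] (b : Basis ι ℤ_[p] O) (A : Type) [AddCommGroup A] (N : ℕ) (z : O ⊗[ℤ] A) :
    ∃ (e : ι → A) (y : O ⊗[ℤ] A), z = ∑ i, b i ⊗ₜ e i + p ^ N • y := by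
  induction N with
  | zero => exact ⟨0, z, by simp⟩
  | succ N ih =>
    obtain ⟨e, y, hy⟩ := ih
    obtain ⟨e', y', hy'⟩ := Pool.Agent.Helper59.TH.ten2_one p O ι b A y
    refine ⟨fun i => e i + p ^ N • e' i, y', ?_⟩
    rw [hy, hy', smul_add, ← mul_smul, ← pow_succ, Finset.smul_sum, ← add_assoc,
      ← Finset.sum_add_distrib]
    congr 1
    refine Finset.sum_congr rfl fun i _ => ?_
    rw [TensorProduct.tmul_add, ← TensorProduct.smul_tmul, TensorProduct.smul_tmul']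

theorem two (p : ℕ) [Fact p.Prime] (O : Type) [CommRing O] [Algebra ℤ_[p] O] (ι : Type)
    [Fintype ι] (b : Basis ι ℤ_[p] O) (A : Type) [AddCommGroup A] (N : ℕ) (e : ι → A)
    (y : O ⊗[ℤ] A) (h : ∑ i, b i ⊗ₜ[ℤ] e i = p ^ N • y) (i : ι) : ∃ a, e i = p ^ N • a := by
  classical
  let S : AddSubgroup A := (nsmulAddMonoidHom (p ^ N) : A →+ A).range
  letI : Module (ZMod (p ^ N)) (A ⧸ S) := AddCommGroup.zmodModule (by
    intro x
    induction x using QuotientAddGroup.induction_on with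
    | H a =>
      rw [← QuotientAddGroup.mk_nsmul]
      exact (QuotientAddGroup.eq_zero_iff _).mpr ⟨a, rfl⟩)
  let β : O →ₗ[ℤ] A →ₗ[ℤ] (A ⧸ S) := LinearMap.mk₂ ℤ
    (fun (o : O) (a : A) => PadicInt.toZModPow N (b.repr o i) • (QuotientAddGroup.mk a : A ⧸ S))
    (by intro o1 o2 a; simp [add_smul])
    (by intro c o a; rw [map_zsmul, Finsupp.smul_apply, map_zsmul, smul_assoc])
    (by intro o a1 a2; simp)
    (by intro c o a; rw [QuotientAddGroup.mk_zsmul, smul_comm])
  have h1 : TensorProduct.lift β (∑ l, b l ⊗ₜ[ℤ] e l) = (QuotientAddGroup.mk (e i) : A ⧸ S) := by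
    rw [map_sum, Finset.sum_eq_single i]
    · rw [TensorProduct.lift.tmul]
      simp [β]
    · intro l _ hl
      rw [TensorProduct.lift.tmul]
      simp [β, Finsupp.single_apply, hl]
    · intro hi
      exact absurd (Finset.mem_univ i) hi
  have h2 : TensorProduct.lift β (p ^ N • y) = 0 := by
    rw [map_nsmul]
    generalize TensorProduct.lift β y = q
    rw [← Nat.cast_smul_eq_nsmul (ZMod (p ^ N)), CharP.cast_eq_zero, zero_smul]
  rw [h, h2] at h1
  obtain ⟨a, ha⟩ := (QuotientAddGroup.eq_zero_iff _).mp h1.symm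
  exact ⟨a, ha.symm⟩

theorem t : Pool.Agent.Helper16.SD.Z_TEN := by
  intro p _ O _ _ ι _ b A _ N
  exact ⟨one p O ι b A N, fun e y h i => two p O ι b A N e y h i⟩

end Pool.Agent.Helper95.SD.Z_TEN
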